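import Pool.Agent.Y328.PR5

/-!
# MP_1dc7bd_an, Q2: the answer is negative

There is a minimal Cantor system which is rigid (hence partially rigid, even with constant one)
and a clopen set on which the induced map is not partially rigid.
-/

set_option autoImplicit false

open Filter Topology MeasureTheory
open scoped symmDiff

namespace Pool.Agent.Results.MP_1dc7bd_an.NotPartiallyRigid

/-- There are a minimal Cantor system `(X, T)` with an invariant Borel probability measure `μ`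
which is rigid, and in particular partially rigid, and a clopen set `A` of positive measure such
that the first return map `S` of `A`, with the normalised measure `μ / μ A`, is not partially
rigid. -/
theorem result :
    ∃ (X : Type) (_ : TopologicalSpace X) (_ : CompactSpace X)
      (_ : TopologicalSpace.MetrizableSpace X) (_ : TotallyDisconnectedSpace X)
      (_ : MeasurableSpace X) (_ : BorelSpace X) (T : X ≃ₜ X) (μ : Measure X)
      (A : Set X) (S : X → X),
      -- a minimal Cantor system with an invariant probability measure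
      (∀ x : X, (𝓝[≠] x).NeBot) ∧ IsProbabilityMeasure μ ∧ MeasurePreserving (⇑T) μ μ ∧
      (∀ x : X, Dense {y : X | ∃ n : ℕ, (⇑T)^[n] x = y ∨ (⇑T.symm)^[n] x = y}) ∧
      -- rigid
      (∃ n : ℕ → ℕ, StrictMono n ∧ (∀ k, 0 < n k) ∧ ∀ B : Set X, MeasurableSet B →
        Tendsto (fun k => μ (((⇑T)^[n k] ⁻¹' B) ∆ B)) atTop (𝓝 0)) ∧
      -- partially rigid
      (∃ δ : ENNReal, 0 < δ ∧ δ ≤ 1 ∧ ∃ n : ℕ → ℕ, StrictMono n ∧ (∀ k, 0 < n k) ∧
        ∀ B : Set X, MeasurableSet B →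
          δ * μ B ≤ liminf (fun k => μ (B ∩ (⇑T)^[n k] ⁻¹' B)) atTop) ∧
      -- a clopen set of positive measure and its first return map
      IsClopen A ∧ μ A ≠ 0 ∧
      (∀ x ∈ A, ∃ r : ℕ, 0 < r ∧ S x = (⇑T)^[r] x ∧ (⇑T)^[r] x ∈ A ∧
        ∀ j : ℕ, 0 < j → j < r → (⇑T)^[j] x ∉ A) ∧
      -- the induced system is not partially rigid
      ¬ ∃ δ : ENNReal, 0 < δ ∧ δ ≤ 1 ∧ ∃ n : ℕ → ℕ, StrictMono n ∧ (∀ k, 0 < n k) ∧
        ∀ B : Set X, MeasurableSet B → B ⊆ A →
          δ * (μ B / μ A) ≤ liminf (fun k => μ (B ∩ S^[n k] ⁻¹' B) / μ A) atTop := by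
  refine ⟨Y328.PR.XX, inferInstance, inferInstance, inferInstance, inferInstance, inferInstance,
    inferInstance, Y328.PR.TX, Y328.PR.muX, Y328.PR.AX, Y328.PR.SX, Y328.PR.perfectX,
    inferInstance, Y328.PR.mp_TX, Y328.PR.minimalX,
    ⟨Y328.PR.q, Y328.PR.strictMono_q, Y328.PR.q_pos, Y328.PR.rigid_TX⟩,
    ⟨1, one_pos, le_rfl, Y328.PR.q, Y328.PR.strictMono_q, Y328.PR.q_pos, ?_⟩,
    Y328.PR.isClopen_AX, Y328.PR.measure_AX_ne, Y328.PR.SX_spec, ?_⟩
  · intro B hB
    rw [one_mul]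
    have h1 := Y328.PR.rigid_TX B hB
    have h2 : ∀ k, Y328.PR.muX B ≤
        Y328.PR.muX (B ∩ (⇑Y328.PR.TX)^[Y328.PR.q k] ⁻¹' B) +
          Y328.PR.muX (((⇑Y328.PR.TX)^[Y328.PR.q k] ⁻¹' B) ∆ B) := by
      intro k
      refine (measure_mono ?_).trans (measure_union_le _ _)
      intro x hx
      by_cases h : x ∈ (⇑Y328.PR.TX)^[Y328.PR.q k] ⁻¹' B
      · left; exact ⟨hx, h⟩
      · right; right; exact ⟨hx, h⟩
    have h3 : Tendsto (fun k => Y328.PR.muX B -
        Y328.PR.muX (((⇑Y328.PR.TX)^[Y328.PR.q k] ⁻¹' B) ∆ B)) atTop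
        (𝓝 (Y328.PR.muX B - 0)) :=
      ENNReal.Tendsto.sub tendsto_const_nhds h1 (Or.inl (measure_ne_top _ _))
    rw [tsub_zero] at h3
    rw [← h3.liminf_eq]
    exact liminf_le_liminf (Eventually.of_forall fun k => tsub_le_iff_right.2 (h2 k))
  · rintro ⟨δ, hδ, hδ1, n, _, hn, h⟩
    have hA0 := Y328.PR.measure_AX_ne
    have hAt : Y328.PR.muX Y328.PR.AX ≠ ⊤ := measure_ne_top _ _
    refine Y328.PR.not_partially_rigid Y328.PR.SX Y328.PR.SX_spec δ hδ hδ1 n hn ?_
    intro B hB hBA c hc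
    have h1 : c / Y328.PR.muX Y328.PR.AX <
        liminf (fun k => Y328.PR.muX (B ∩ Y328.PR.SX^[n k] ⁻¹' B) / Y328.PR.muX Y328.PR.AX)
          atTop := by
      refine lt_of_lt_of_le ?_ (h B hB hBA)
      rw [← mul_div_assoc]
      exact ENNReal.div_lt_div_right hA0 hAt hc
    filter_upwards [eventually_lt_of_lt_liminf h1] with k hk
    by_contra hle
    exact absurd hk (not_lt.2 (ENNReal.div_le_div_right (not_lt.1 hle) _))

end Pool.Agent.Results.MP_1dc7bd_an.NotPartiallyRigid
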